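import Pool.Agent.MWS.StmtsA

/-!
# Row NSP of MWS
-/

namespace Pool.Agent.MWS.H75

open Pool.Agent.Helper14_MV Pool.Agent.Helper2_MV Pool.Agent.MVO Pool.Agent.MWL Pool.Agent.MWS

theorem step (hC : CapStmt) {β θ : FIC} (hA : ApI β) (hle : β ≤ θ) (hn : NC2 θ) {w : Word}
    (h : θ.r (FreeMonoid.ofList [0, 1]) w) : w = FreeMonoid.ofList [0, 1] := by
  obtain ⟨l, hl⟩ : ∃ l : List ℕ, w = FreeMonoid.ofList l :=
    ⟨w.toList, (FreeMonoid.ofList_toList w).symm⟩
  rw [hl] at h ⊢
  have h0 : RR θ [0, 1] l := h
  have h1 := hC β θ hA hle hn [0, 1] l h0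
  have hp : l.Perm [0, 1] := by
    rw [List.perm_iff_count]
    intro c
    have h2 := h1 c
    by_cases hc0 : c = 0
    · subst hc0
      have e : List.count 0 ([0, 1] : List ℕ) = 1 := by decide
      rw [e] at h2 ⊢
      omega
    · by_cases hc1 : c = 1
      · subst hc1
        have e : List.count 1 ([0, 1] : List ℕ) = 1 := by decide
        rw [e] at h2 ⊢
        omega
      · have e : List.count c ([0, 1] : List ℕ) = 0 := by
          apply List.count_eq_zero.2
          intro hm
          rcases List.mem_cons.1 hm with h3 | h3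
          · exact hc0 h3
          · rcases List.mem_cons.1 h3 with h4 | h4
            · exact hc1 h4
            · exact absurd h4 (List.not_mem_nil)
        rw [e] at h2 ⊢
        omega
  obtain ⟨a, b, hab⟩ : ∃ a b, l = [a, b] := List.length_eq_two.1 hp.length_eq
  subst hab
  have ha : a = 0 ∨ a = 1 := by
    have h2 : a ∈ ([0, 1] : List ℕ) := hp.subset (by simp)
    simpa using h2
  have hb : b = 0 ∨ b = 1 := by
    have h2 : b ∈ ([0, 1] : List ℕ) := hp.subset (by simp)
    simpa using h2
  have hnd : a ≠ b := by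
    have h2 : ([a, b] : List ℕ).Nodup := hp.nodup_iff.2 (by decide)
    simpa using h2
  rcases ha with rfl | rfl
  · rcases hb with rfl | rfl
    · exact absurd rfl hnd
    · rfl
  · rcases hb with rfl | rfl
    · exact absurd h0 hn
    · exact absurd rfl hnd

/-- **NSP** -/
theorem nsp (hC : CapStmt) : NspStmt := by
  intro β ρ σ hA hρ hσ hnρ hnσ h
  have key : ∀ w : Word, Relation.ReflTransGen (FIC.stp ρ σ) (FreeMonoid.ofList [0, 1]) w →
      w = FreeMonoid.ofList [0, 1] := by
    intro w hw
    induction hw with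
    | refl => rfl
    | tail _ h3 ih =>
      rw [ih] at h3
      rcases h3 with h4 | h4
      · exact step hC hA hρ hnρ h4
      · exact step hC hA hσ hnσ h4
  have h1 := key _ h
  have h2 : ([1, 0] : List ℕ) = [0, 1] := h1
  exact absurd h2 (by decide)

end Pool.Agent.MWS.H75
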